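import Mathlib
import Pool.Agent.H39.SIT.Hyper

set_option autoImplicit false

namespace Pool.Agent.Results.MP_4a5c4b_co.BinaryAffineSIT

/-- the point set, the vector space of dimension `n` over the field with two elements -/
abbrev Point (n : ℕ) := Fin n → ZMod 2

/-- the group of all affine bijections of the point set -/
abbrev AGL (n : ℕ) := Point n ≃ᵃ[ZMod 2] Point n

/-- a group of affine bijections acts 2-transitively on the points -/
def TwoTransitive {n : ℕ} (G : Subgroup (AGL n)) : Prop :=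
  ∀ x y x' y' : Point n, x ≠ y → x' ≠ y' → ∃ g ∈ G, g x = x' ∧ g y = y'

/-- the set `C` of point sets is a `G`-strongly incidence-transitive code in the Johnson graph of
`k`-subsets: all members have size `k`, the group `G` preserves `C`, and `G` is transitive on
the triples (point in the codeword, point outside the codeword, codeword) -/
structure IsSIT {n : ℕ} (G : Subgroup (AGL n)) (k : ℕ) (C : Set (Finset (Point n))) : Prop where
  card_eq : ∀ γ ∈ C, γ.card = k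
  invariant : ∀ g ∈ G, ∀ γ ∈ C, γ.image g ∈ C
  transitive : ∀ γ ∈ C, ∀ γ' ∈ C, ∀ x ∈ γ, ∀ y, y ∉ γ → ∀ x' ∈ γ', ∀ y', y' ∉ γ' →
    ∃ g ∈ G, γ.image g = γ' ∧ g x = x' ∧ g y = y'

/-- all affine subspaces with `2 ^ d` points -/
def flats (n d : ℕ) : Set (Finset (Point n)) :=
  {γ | γ.card = 2 ^ d ∧ ∃ S : AffineSubspace (ZMod 2) (Point n), (S : Set (Point n)) = γ}

/-- the quadratic form `x_0 x_1 + x_2 x_3 + ⋯ + x_{2m-2} x_{2m-1}` in `n` variables -/
def Q (n m : ℕ) (x : Point n) : ZMod 2 :=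
  ∑ i ∈ Finset.range m, if h : 2 * i + 1 < n then x ⟨2 * i, by omega⟩ * x ⟨2 * i + 1, h⟩ else 0

/-- all images of the point set `Q = 1` under affine bijections -/
def quadrics (n m : ℕ) : Set (Finset (Point n)) :=
  {γ | ∃ g : AGL n, γ = (Finset.univ.filter fun x => Q n m x = 1).image g}

/-- the list of codes for the block size `k` -/
def Listed (n k : ℕ) (D : Set (Finset (Point n))) : Prop :=
  (∃ d, 2 ≤ d ∧ d ≤ n - 1 ∧ k = 2 ^ d ∧ D = flats n d) ∨
  (∃ m, 2 ≤ m ∧ 2 * m ≤ n ∧ k = 2 ^ (n - 1) - 2 ^ (n - m - 1) ∧ D = quadrics n m)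

open Pool.Agent.H39.SIT

theorem mem_image_iff {n : ℕ} (g : AGL n) (γ : Finset (Point n)) (x : Point n) :
    g x ∈ γ.image g ↔ x ∈ γ := by
  rw [Finset.mem_image]
  constructor
  · rintro ⟨y, hy, hyx⟩
    exact g.injective hyx ▸ hy
  · intro h; exact ⟨x, h, rfl⟩

theorem image_eq_of {n : ℕ} (g : AGL n) (γ γ' : Finset (Point n)) (h : ∀ z, g z ∈ γ' ↔ z ∈ γ) :
    γ.image g = γ' := by
  ext x
  obtain ⟨z, rfl⟩ := g.surjective x
  rw [mem_image_iff, h]

theorem image_trans {n : ℕ} (g h : AGL n) (γ : Finset (Point n)) :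
    γ.image (g.trans h) = (γ.image g).image h := by
  rw [Finset.image_image]; rfl

theorem tr_of_SIT {n k : ℕ} {G : Subgroup (AGL n)} {C : Set (Finset (Point n))}
    (h : IsSIT G k C) {γ : Finset (Point n)} (hγ : γ ∈ C) : Tr γ := by
  intro x hx y hy x' hx' y' hy'
  obtain ⟨g, _, h1, h2, h3⟩ := h.transitive γ hγ γ hγ x hx y hy x' hx' y' hy'
  refine ⟨g.toEquiv, aff_of_affineEquiv g, fun z => ?_, h2, h3⟩
  show g z ∈ γ ↔ z ∈ γ
  conv_lhs => rw [← h1]
  exact mem_image_iff g γ z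

theorem flat_triple {n : ℕ} {γ : Finset (Point n)}
    (h : ∃ S : AffineSubspace (ZMod 2) (Point n), (S : Set (Point n)) = γ) :
    ∀ x ∈ γ, ∀ y ∈ γ, ∀ z ∈ γ, x + y + z ∈ γ := by
  obtain ⟨S, hS⟩ := h
  have hm : ∀ x, x ∈ γ ↔ x ∈ S := by
    intro x
    rw [← Finset.mem_coe, ← hS, SetLike.mem_coe]
  intro x hx y hy z hz
  rw [hm] at hx hy hz ⊢
  have h1 := S.smul_vsub_vadd_mem (1 : ZMod 2) hx hy hz
  have h2 : (1 : ZMod 2) • (x -ᵥ y) +ᵥ z = x + y + z := by
    rw [one_smul]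
    show x - y + z = x + y + z
    rw [sub_eq_add_neg, neg_eq' y]
  rwa [h2] at h1

theorem flats_of {n d : ℕ} {γ γ' : Finset (Point n)} (hγ : γ ∈ flats n d) (hγ' : γ' ∈ flats n d)
    {x y x' y' : Point n} (hx : x ∈ γ) (hy : y ∉ γ) (hx' : x' ∈ γ') (hy' : y' ∉ γ') :
    ∃ g : AGL n, γ.image g = γ' ∧ g x = x' ∧ g y = y' := by
  have t := flat_triple hγ.2
  have t' := flat_triple hγ'.2
  obtain ⟨g, hg⟩ := flat_orbit t t' ⟨x, hx⟩ ⟨x', hx'⟩ (by rw [hγ.1, hγ'.1])
  obtain ⟨h, h1, h2, h3⟩ := flat_trans t' (x := g x) (y := g y) ((hg x).2 hx)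
    (fun hh => hy ((hg y).1 hh)) hx' hy'
  refine ⟨g.trans h, image_eq_of _ _ _ fun z => ?_, h2, h3⟩
  rw [AffineEquiv.trans_apply, h1, hg]

theorem Q_eq {n m : ℕ} : Q n m = stdForm n m := rfl

theorem mem_std {n m : ℕ} (x : Point n) :
    x ∈ (Finset.univ.filter fun x : Point n => Q n m x = 1) ↔ stdForm n m x = 1 := by
  rw [Finset.mem_filter]
  exact ⟨fun h => h.2, fun h => ⟨Finset.mem_univ _, h⟩⟩

theorem mem_quadrics {n m : ℕ} {γ : Finset (Point n)} :
    γ ∈ quadrics n m ↔ ∃ g : AGL n, ∀ x, x ∈ γ ↔ stdForm n m (g x) = 1 := by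
  constructor
  · rintro ⟨g, hg⟩
    refine ⟨g.symm, fun x => ?_⟩
    rw [hg]
    obtain ⟨z, rfl⟩ := g.surjective x
    rw [mem_image_iff, AffineEquiv.symm_apply_apply, mem_std]
  · rintro ⟨g, hg⟩
    refine ⟨g.symm, (image_eq_of _ _ _ fun z => ?_).symm⟩
    rw [hg, AffineEquiv.apply_symm_apply, mem_std]

theorem quadrics_of {n m : ℕ} (hm : 2 * m ≤ n) {γ γ' : Finset (Point n)}
    (hγ : γ ∈ quadrics n m) (hγ' : γ' ∈ quadrics n m)
    {x y x' y' : Point n} (hx : x ∈ γ) (hy : y ∉ γ) (hx' : x' ∈ γ') (hy' : y' ∉ γ') :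
    ∃ g : AGL n, γ.image g = γ' ∧ g x = x' ∧ g y = y' := by
  obtain ⟨g, hg⟩ := mem_quadrics.1 hγ
  obtain ⟨g', hg'⟩ := mem_quadrics.1 hγ'
  have hy0 : stdForm n m (g y) = 0 := by
    rcases z01 (stdForm n m (g y)) with h | h
    · exact h
    · exact absurd ((hg y).2 h) hy
  have hy0' : stdForm n m (g' y') = 0 := by
    rcases z01 (stdForm n m (g' y')) with h | h
    · exact h
    · exact absurd ((hg' y').2 h) hy'
  obtain ⟨h, h1, h2, h3⟩ := quad_trans (std_aff m) (std_sum_pos m hm) ((hg x).1 hx) hy0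
    ((hg' x').1 hx') hy0'
  refine ⟨(g.trans h).trans g'.symm, image_eq_of _ _ _ fun z => ?_, ?_, ?_⟩
  · rw [hg', AffineEquiv.trans_apply, AffineEquiv.apply_symm_apply, AffineEquiv.trans_apply, h1,
      hg]
  · rw [AffineEquiv.trans_apply, AffineEquiv.trans_apply, h2, AffineEquiv.symm_apply_apply]
  · rw [AffineEquiv.trans_apply, AffineEquiv.trans_apply, h3, AffineEquiv.symm_apply_apply]

theorem flats_image {n d : ℕ} (g : AGL n) {γ : Finset (Point n)} (hγ : γ ∈ flats n d) :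
    γ.image g ∈ flats n d := by
  obtain ⟨h1, S, hS⟩ := hγ
  refine ⟨?_, S.map (g : Point n →ᵃ[ZMod 2] Point n), ?_⟩
  · rw [Finset.card_image_of_injective _ g.injective, h1]
  · rw [AffineSubspace.coe_map, hS, Finset.coe_image]; rfl

theorem quadrics_image {n m : ℕ} (g : AGL n) {γ : Finset (Point n)} (hγ : γ ∈ quadrics n m) :
    γ.image g ∈ quadrics n m := by
  obtain ⟨h, rfl⟩ := hγ
  exact ⟨h.trans g, (image_trans h g _).symm⟩

/-- an invariant family is nontrivial -/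
theorem nontrivial_of {n : ℕ} {D : Set (Finset (Point n))}
    (hD : ∀ (g : AGL n), ∀ γ ∈ D, γ.image g ∈ D) {γ : Finset (Point n)} (hγ : γ ∈ D)
    {x y : Point n} (hx : x ∈ γ) (hy : y ∉ γ) : D.Nontrivial := by
  let g : AGL n := AffineEquiv.constVAdd (ZMod 2) (Point n) (x + y)
  refine ⟨γ, hγ, γ.image g, hD g γ hγ, fun h => hy ?_⟩
  rw [h, Finset.mem_image]
  refine ⟨x, hx, ?_⟩
  show x + y + x = y
  rw [add_comm (x + y) x, add_vadd]

theorem std_nonempty {n m : ℕ} (hm1 : 2 ≤ m) (hm : 2 * m ≤ n) :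
    (∃ x : Point n, stdForm n m x = 1) ∧ ∃ y : Point n, stdForm n m y = 0 := by
  have h1 := std_card (n := n) m (by omega) hm
  have h2 : 2 ^ (n - m - 1) < 2 ^ (n - 1) := Nat.pow_lt_pow_right (by norm_num) (by omega)
  constructor
  · have h3 : (Finset.univ.filter fun x : Point n => stdForm n m x = 1).Nonempty := by
      rw [← Finset.card_pos]
      have h1' : (Finset.univ.filter fun x : Point n => stdForm n m x = 1).card =
        2 ^ (n - 1) - 2 ^ (n - m - 1) := h1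
      omega
    obtain ⟨x, hx⟩ := h3
    exact ⟨x, (Finset.mem_filter.1 hx).2⟩
  · refine ⟨0, ?_⟩
    rw [stdForm_eq]
    apply Finset.sum_eq_zero
    intro i _
    unfold term
    split_ifs
    · simp
    · rfl

/-- the listed families are codes for the full affine group -/
theorem listed_SIT {n k : ℕ} (hn : 3 ≤ n) {D : Set (Finset (Point n))} (h : Listed n k D) :
    IsSIT (⊤ : Subgroup (AGL n)) k D ∧ D.Nontrivial := by
  rcases h with ⟨d, hd1, hd2, hk, rfl⟩ | ⟨m, hm1, hm2, hk, rfl⟩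
  · refine ⟨⟨fun γ hγ => by rw [hk]; exact hγ.1, fun g _ γ hγ => flats_image g hγ,
      fun γ hγ γ' hγ' x hx y hy x' hx' y' hy' => ?_⟩, ?_⟩
    · obtain ⟨g, hg⟩ := flats_of hγ hγ' hx hy hx' hy'
      exact ⟨g, Subgroup.mem_top g, hg⟩
    · -- an example of a flat
      obtain ⟨W, hW⟩ : ∃ W : Submodule (ZMod 2) (Point n), Module.finrank (ZMod 2) W = d := by
        have hle : n - d ≤ n := by omega
        obtain ⟨L, hL⟩ : ∃ L : Point n →ₗ[ZMod 2] (Fin (n - d) → ZMod 2),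
            Function.Surjective L :=
          ⟨LinearMap.funLeft (ZMod 2) (ZMod 2) (Fin.castLE hle),
            LinearMap.funLeft_surjective_of_injective (ZMod 2) (ZMod 2)
              (Fin.castLE hle) (Fin.castLE_injective hle)⟩
        refine ⟨LinearMap.ker L, ?_⟩
        have h1 := L.finrank_range_add_finrank_ker
        rw [LinearMap.range_eq_top.2 hL, finrank_top, Module.finrank_fin_fun,
          Module.finrank_fin_fun] at h1
        omega
      classical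
      have hcard : (Finset.univ.filter fun x => x ∈ W).card = 2 ^ d := by
        have h1 : Nat.card W = 2 ^ d := by
          rw [Module.natCard_eq_pow_finrank (K := ZMod 2) (V := W), hW]; simp
        rw [← h1, Nat.card_eq_fintype_card, Fintype.card_subtype]
      have hmem : (Finset.univ.filter fun x => x ∈ W) ∈ flats n d := by
        refine ⟨hcard, W.toAffineSubspace, ?_⟩
        ext x
        simp
      have hlt : (Finset.univ.filter fun x => x ∈ W).card < 2 ^ n := by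
        rw [hcard]; exact Nat.pow_lt_pow_right (by norm_num) (by omega)
      obtain ⟨y, hy⟩ := exists_notMem hlt
      exact nontrivial_of (fun g γ hγ => flats_image g hγ) hmem
        (x := 0) (by simp) hy
  · refine ⟨⟨fun γ hγ => ?_, fun g _ γ hγ => quadrics_image g hγ,
      fun γ hγ γ' hγ' x hx y hy x' hx' y' hy' => ?_⟩, ?_⟩
    · obtain ⟨g, rfl⟩ := hγ
      rw [Finset.card_image_of_injective _ g.injective, hk]
      exact std_card m (by omega) hm2
    · obtain ⟨g, hg⟩ := quadrics_of hm2 hγ hγ' hx hy hx' hy'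
      exact ⟨g, Subgroup.mem_top g, hg⟩
    · obtain ⟨⟨x, hx⟩, y, hy⟩ := std_nonempty hm1 hm2
      refine nontrivial_of (fun g γ hγ => quadrics_image g hγ)
        (γ := Finset.univ.filter fun x => Q n m x = 1)
        (mem_quadrics.2 ⟨AffineEquiv.refl _ _, fun x => mem_std x⟩)
        (x := x) (y := y) ((mem_std x).2 hx) (fun h => ?_)
      rw [mem_std, hy] at h
      exact absurd h (by decide)

theorem pow_two_ne {n m d : ℕ} (hm1 : 2 ≤ m) (hm2 : 2 * m ≤ n) :
    2 ^ d ≠ 2 ^ (n - 1) - 2 ^ (n - m - 1) := by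
  intro h
  have e1 : 2 ^ (n - 1) = 2 ^ (n - m - 1) * 2 ^ m := by rw [← pow_add]; congr 1; omega
  have h4 : (4 : ℕ) ∣ 2 ^ m := ⟨2 ^ (m - 2), by
    rw [show (4 : ℕ) = 2 ^ 2 by norm_num, ← pow_add]; congr 1; omega⟩
  have hpos : 0 < 2 ^ m := by positivity
  have h5 : 2 ^ d = 2 ^ (n - m - 1) * (2 ^ m - 1) := by
    rw [h, e1, Nat.mul_sub, mul_one]
  have h6 : (2 ^ m - 1) ∣ 2 ^ d := ⟨2 ^ (n - m - 1), by rw [h5, mul_comm]⟩
  obtain ⟨j, _, hj⟩ := (Nat.dvd_prime_pow Nat.prime_two).1 h6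
  have hodd : ¬ 2 ∣ 2 ^ m - 1 := by omega
  rcases Nat.eq_zero_or_pos j with h0 | h0
  · rw [h0, pow_zero] at hj; omega
  · apply hodd
    rw [hj]
    exact dvd_pow_self 2 (by omega)

theorem quadric_inj {n m m' : ℕ} (hm : 2 * m ≤ n) (hm' : 2 * m' ≤ n) (hm1 : 2 ≤ m)
    (hm1' : 2 ≤ m') (h : 2 ^ (n - 1) - 2 ^ (n - m - 1) = 2 ^ (n - 1) - 2 ^ (n - m' - 1)) :
    m = m' := by
  have h1 : 2 ^ (n - m - 1) < 2 ^ (n - 1) := Nat.pow_lt_pow_right (by norm_num) (by omega)
  have h2 : 2 ^ (n - m' - 1) < 2 ^ (n - 1) := Nat.pow_lt_pow_right (by norm_num) (by omega)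
  have h3 : 2 ^ (n - m - 1) = 2 ^ (n - m' - 1) := by omega
  have := Nat.pow_right_injective le_rfl h3
  omega

/-- the members of a code lie in one listed family -/
theorem subset_listed {n k : ℕ} (hn : 3 ≤ n) (hk3 : 3 ≤ k) (hk : k ≤ 2 ^ (n - 1))
    {G : Subgroup (AGL n)} {C : Set (Finset (Point n))} (h : IsSIT G k C) (hne : C.Nonempty) :
    ∃ D, Listed n k D ∧ C ⊆ D := by
  have fw : ∀ γ ∈ C, (∃ d, 2 ≤ d ∧ d ≤ n - 1 ∧ k = 2 ^ d ∧ γ ∈ flats n d) ∨
      (∃ m, 2 ≤ m ∧ 2 * m ≤ n ∧ k = 2 ^ (n - 1) - 2 ^ (n - m - 1) ∧ γ ∈ quadrics n m) := by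
    intro γ hγ
    have hc := h.card_eq γ hγ
    rcases forward (tr_of_SIT h hγ) (by omega) (by omega) (by omega) with
      ⟨hS, d, h1, h2, h3⟩ | ⟨m, h1, h2, h3, h4⟩
    · exact Or.inl ⟨d, h1, h2, by rw [← hc, h3], h3, hS⟩
    · exact Or.inr ⟨m, h1, h2, by rw [← hc, h3], mem_quadrics.2 h4⟩
  obtain ⟨γ, hγ⟩ := hne
  rcases fw γ hγ with ⟨d, h1, h2, h3, _⟩ | ⟨m, h1, h2, h3, _⟩
  · refine ⟨flats n d, Or.inl ⟨d, h1, h2, h3, rfl⟩, fun δ hδ => ?_⟩
    rcases fw δ hδ with ⟨d', h1', h2', h3', h4'⟩ | ⟨m, h1', h2', h3', _⟩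
    · have : d = d' := Nat.pow_right_injective le_rfl (h3.symm.trans h3')
      rw [this]; exact h4'
    · exact absurd (h3.symm.trans h3') (pow_two_ne h1' h2')
  · refine ⟨quadrics n m, Or.inr ⟨m, h1, h2, h3, rfl⟩, fun δ hδ => ?_⟩
    rcases fw δ hδ with ⟨d', h1', h2', h3', h4'⟩ | ⟨m', h1', h2', h3', h4'⟩
    · exact absurd (h3'.symm.trans h3) (pow_two_ne h1 h2)
    · have : m = m' := quadric_inj h2 h2' h1 h1' (h3.symm.trans h3')
      rw [this]; exact h4'

/-- **Strongly incidence-transitive codes over the field with two elements.** -/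
theorem result (n k : ℕ) (hn : 3 ≤ n) (hk3 : 3 ≤ k) (hk : k ≤ 2 ^ (n - 1)) :
    (∀ (G : Subgroup (AGL n)) (C : Set (Finset (Point n))), IsSIT G k C → C.Nonempty →
      ∃ D, Listed n k D ∧ C ⊆ D) ∧
    (∀ C : Set (Finset (Point n)),
      (IsSIT (⊤ : Subgroup (AGL n)) k C ∧ C.Nontrivial) ↔ Listed n k C) ∧
    TwoTransitive (⊤ : Subgroup (AGL n)) ∧
    (k = 2 ^ (n - 1) → ∀ (G : Subgroup (AGL n)) (C : Set (Finset (Point n))),
      TwoTransitive G → IsSIT G k C → C.Nonempty → C = flats n (n - 1)) := by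
  refine ⟨fun G C h hne => subset_listed hn hk3 hk h hne, fun C => ⟨?_, listed_SIT hn⟩, ?_, ?_⟩
  · rintro ⟨h, hnt⟩
    obtain ⟨D, hD, hCD⟩ := subset_listed hn hk3 hk h hnt.nonempty
    have hDS := listed_SIT hn hD
    have : C = D := by
      apply Set.Subset.antisymm hCD
      intro δ hδ
      obtain ⟨γ, hγ⟩ := hnt.nonempty
      have h2 : 2 ^ (n - 1) < 2 ^ n := Nat.pow_lt_pow_right (by norm_num) (by omega)
      have ex : ∀ γ ∈ D, (∃ x, x ∈ γ) ∧ ∃ y, y ∉ γ := by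
        intro γ hγ
        have hc := hDS.1.card_eq γ hγ
        refine ⟨?_, exists_notMem (by omega)⟩
        have : γ.Nonempty := Finset.card_pos.1 (by omega)
        exact this
      obtain ⟨⟨x, hx⟩, y, hy⟩ := ex γ (hCD hγ)
      obtain ⟨⟨x', hx'⟩, y', hy'⟩ := ex δ hδ
      obtain ⟨g, _, hg, _⟩ := hDS.1.transitive γ (hCD hγ) δ hδ x hx y hy x' hx' y' hy'
      rw [← hg]
      exact h.invariant g (Subgroup.mem_top g) γ hγ
    rw [this]; exact hD
  · intro x y x' y' hxy hxy'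
    obtain ⟨g, _, h1, h2⟩ := flats_of (d := 0) (γ := {x}) (γ' := {x'})
      ⟨by simp, ⟨AffineSubspace.mk' x ⊥, by ext z; simp [AffineSubspace.mem_mk', sub_eq_zero]⟩⟩
      ⟨by simp, ⟨AffineSubspace.mk' x' ⊥, by ext z; simp [AffineSubspace.mem_mk', sub_eq_zero]⟩⟩
      (x := x) (y := y) (x' := x') (y' := y') (by simp) (by simpa using hxy.symm) (by simp)
      (by simpa using hxy'.symm)
    exact ⟨g, Subgroup.mem_top g, h1, h2⟩
  · intro hk' G C hG h hne
    obtain ⟨D, hD, hCD⟩ := subset_listed hn hk3 hk h hne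
    have hDf : D = flats n (n - 1) := by
      rcases hD with ⟨d, h1, h2, h3, rfl⟩ | ⟨m, h1, h2, h3, _⟩
      · have : d = n - 1 := Nat.pow_right_injective le_rfl (h3.symm.trans hk')
        rw [this]
      · exact absurd (hk'.symm.trans h3) (pow_two_ne h1 h2)
    subst hDf
    apply Set.Subset.antisymm hCD
    intro δ hδ
    classical
    have h2n : 2 ^ n = 2 * 2 ^ (n - 1) := by rw [← pow_succ']; congr 1; omega
    have hp : 0 < 2 ^ (n - 1) := by positivity
    have hyp : ∀ γ ∈ flats n (n - 1), ∃ w : V n, ∃ c : ZMod 2, w ≠ 0 ∧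
        ∀ x, F γ x = dot w x + c := by
      intro γ hγ
      exact exists_hyper (flat_triple hγ.2) (Finset.card_pos.1 (by rw [hγ.1]; exact hp))
        (by rw [hγ.1, h2n])
    obtain ⟨w, c, hw, hc⟩ := hyp δ hδ
    have := hyper_unique (Finset.univ.filter fun γ => γ ∈ C)
      (fun f => ∃ g ∈ G, f = (g : Point n → Point n))
      (by
        rintro f ⟨g, hg, rfl⟩
        refine ⟨g.injective, fun γ hγ => ?_⟩
        rw [Finset.mem_filter] at hγ ⊢
        exact ⟨Finset.mem_univ _, h.invariant g hg γ hγ.2⟩)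
      (by
        intro x y x' y' h1 h2
        obtain ⟨g, hg, h3, h4⟩ := hG x y x' y' h1 h2
        exact ⟨g, ⟨g, hg, rfl⟩, h3, h4⟩)
      (by omega)
      (by
        intro γ hγ
        exact hyp γ (hCD (Finset.mem_filter.1 hγ).2))
      (by
        obtain ⟨γ, hγ⟩ := hne
        exact ⟨γ, Finset.mem_filter.2 ⟨Finset.mem_univ _, hγ⟩⟩)
      hw hc
    exact (Finset.mem_filter.1 this).2

end Pool.Agent.Results.MP_4a5c4b_co.BinaryAffineSIT
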